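import Pool.Agent.W2helper56.PK.Stm
import Pool.Agent.W2helper58.GU.Mach

/-! The guided machine (piece E1). -/

set_option autoImplicit false

namespace Pool.Agent.W2helper57.PK

open Pool.Agent.NPC Pool.Agent.H622R2 Pool.Agent.H620R2.Gauge Pool.Agent.W2helper58.GU
  Pool.Agent.W2helper56.PK

theorem poly_rep {α : Type} [TEnc α] {n : α → ℕ} (hn : UPoly n) :
    Poly (fun a => List.replicate (n a) true) :=
  (NPC.Poly.map (F := fun _ _ => true) hn (NPC.Poly.const true)).congr fun a => by
    simp [List.map_replicate]

/-! ### Decision trees -/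

theorem at_nil {β : Type} (D : DT (List Bool) β) : D.at [] = D := by
  cases D <;> rfl

theorem at_append {β : Type} (l : List Bool) : ∀ (h : List Bool) (D : DT (List Bool) β),
    D.at (h ++ l) = (D.at h).at l := by
  intro h
  induction h with
  | nil => intro D; rw [at_nil, List.nil_append]
  | cons b h ih =>
    intro D
    cases D with
    | ret c => rfl
    | ask z k => exact ih (k b)

/-! ### The machine -/

section

variable (i : ℕ) (N m : Polynomial ℕ)

/-- the state: the answers, the known part of the code, and the candidate for the question -/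
abbrev Sta : Type := List Bool × List Bool × List Bool

/-- is the guide asked? -/
def gd (p : List Bool × Sta) : Bool :=
  decide (p.2.2.1.length < m.eval (unpair p.1).1.length) ||
    decide (N.eval (unpair p.1).1.length ≤ p.2.1.length)

/-- the next question -/
def gqu (p : List Bool × Sta) : List Bool :=
  if gd N m p = true then
    true :: false :: pairBits (hdr i (unpair p.1).1.length (m.eval (unpair p.1).1.length))
      (pairBits (unpair p.1).2 (pairBits p.2.1 p.2.2.1))
  else p.2.2.2

/-- the next state -/
def gst (p : List Bool × Sta × Bool) : Sta :=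
  if gd N m (p.1, p.2.1) = true then
    (p.2.1.1, p.2.1.2.1 ++ [p.2.2], if p.2.2 = true then p.2.1.2.1 else p.2.1.2.2)
  else (p.2.1.1 ++ [p.2.2], [], [])

theorem poly_gd : Poly (gd N m) := by
  have h1 : UPoly (fun p : List Bool × Sta => (unpair p.1).1.length) :=
    UPoly.length (Poly.fst (poly_unpair.comp (Poly.fst Poly.id)))
  have h2 : Poly (fun p : List Bool × Sta => p.2.2.1) := Poly.fst (Poly.snd (Poly.snd Poly.id))
  have h3 : Poly (fun p : List Bool × Sta => p.2.1) := Poly.fst (Poly.snd Poly.id)
  exact Poly.or (Poly.decide_lt (Poly.length h2) (h1.eval m).toPoly)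
    (Poly.decide_le (h1.eval N).toPoly (Poly.length h3))

theorem poly_gqu : Poly (gqu i N m) := by
  have h1 : UPoly (fun p : List Bool × Sta => (unpair p.1).1.length) :=
    UPoly.length (Poly.fst (poly_unpair.comp (Poly.fst Poly.id)))
  have h2 : Poly (fun p : List Bool × Sta => p.2.2.1) := Poly.fst (Poly.snd (Poly.snd Poly.id))
  have h3 : Poly (fun p : List Bool × Sta => p.2.1) := Poly.fst (Poly.snd Poly.id)
  have h4 : Poly (fun p : List Bool × Sta => p.2.2.2) := Poly.snd (Poly.snd (Poly.snd Poly.id))
  have h5 : Poly (fun p : List Bool × Sta => (unpair p.1).2) :=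
    Poly.snd (poly_unpair.comp (Poly.fst Poly.id))
  unfold gqu hdr
  refine Poly.ite ?_ (Poly.cons (NPC.Poly.const true) (Poly.cons (NPC.Poly.const false)
    (poly_pairBits (poly_pairBits (NPC.Poly.const _) (poly_pairBits (poly_rep h1)
      (poly_rep (h1.eval m)))) (poly_pairBits h5 (poly_pairBits h3 h2))))) h4
  refine (poly_gd N m).congr fun p => ?_
  simp

theorem poly_gst : Poly (gst N m) := by
  have h0 : Poly (fun p : List Bool × Sta × Bool => (p.1, p.2.1)) :=
    Poly.pair (Poly.fst Poly.id) (Poly.fst (Poly.snd Poly.id))
  have h1 : Poly (fun p : List Bool × Sta × Bool => p.2.1.1) :=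
    Poly.fst (Poly.fst (Poly.snd Poly.id))
  have h2 : Poly (fun p : List Bool × Sta × Bool => p.2.1.2.1) :=
    Poly.fst (Poly.snd (Poly.fst (Poly.snd Poly.id)))
  have h3 : Poly (fun p : List Bool × Sta × Bool => p.2.1.2.2) :=
    Poly.snd (Poly.snd (Poly.fst (Poly.snd Poly.id)))
  have h4 : Poly (fun p : List Bool × Sta × Bool => p.2.2) := Poly.snd (Poly.snd Poly.id)
  have h5 : Poly (fun p : List Bool × Sta × Bool => [p.2.2]) :=
    Poly.cons h4 (NPC.Poly.const [])
  unfold gst
  refine Poly.ite ?_ (Poly.pair h1 (Poly.pair (Poly.append h2 h5) (Poly.ite ?_ h2 h3)))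
    (Poly.pair (Poly.append h1 h5) (NPC.Poly.const _))
  · refine ((poly_gd N m).comp h0).congr fun p => ?_
    simp
  · refine h4.congr fun p => ?_
    simp

theorem gst_len (x a : List Bool) : ∀ s : Sta, ∀ c : ℕ,
    s.1.length ≤ c → s.2.1.length ≤ c → s.2.2.length ≤ c →
    (a.foldl (fun s b => gst N m (x, s, b)) s).1.length ≤ c + a.length ∧
    (a.foldl (fun s b => gst N m (x, s, b)) s).2.1.length ≤ c + a.length ∧
    (a.foldl (fun s b => gst N m (x, s, b)) s).2.2.length ≤ c + a.length := by
  induction a with
  | nil => intro s c h1 h2 h3; exact ⟨h1, h2, h3⟩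
  | cons b a ih =>
    intro s c h1 h2 h3
    rw [List.foldl_cons, List.length_cons]
    have key : (gst N m (x, s, b)).1.length ≤ c + 1 ∧ (gst N m (x, s, b)).2.1.length ≤ c + 1 ∧
        (gst N m (x, s, b)).2.2.length ≤ c + 1 := by
      unfold gst
      split_ifs
      · simp only [List.length_append, List.length_singleton]
        omega
      · simp only [List.length_append, List.length_singleton]
        omega
      · simp only [List.length_append, List.length_singleton, List.length_nil]
        omega
    have := ih _ (c + 1) key.1 key.2.1 key.2.2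
    omega

/-- the guided machine -/
def G (O : Oracle) (x : List Bool) : List Bool :=
  (iter O (fun _ => ([], [], [])) (gqu i N m) (gst N m) x
    (N.eval (unpair x).1.length * (m.eval (unpair x).1.length + 1) + 1)).2.1

theorem isFP_G (O : Oracle) : IsFP O (G i N m O) := by
  have h1 : UPoly (fun x : List Bool => (unpair x).1.length) :=
    UPoly.length (Poly.fst poly_unpair)
  have h2 : UPoly (fun x : List Bool =>
      N.eval (unpair x).1.length * (m.eval (unpair x).1.length + 1) + 1) := by
    refine (h1.eval (N * (m + 1) + 1)).congr fun x => ?_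
    simp
  refine mach (A := O) (init := fun _ => (([], [], []) : Sta)) (qu := gqu i N m) (st := gst N m)
    (out := fun p => p.2.2.1) (NPC.Poly.const _) h2 (poly_gqu i N m) (poly_gst N m)
    (Poly.fst (Poly.snd (Poly.snd Poly.id))) (Polynomial.C 12 * Polynomial.X + Polynomial.C 5)
    fun x a => ?_
  have h3 := gst_len N m x a ([], [], []) 0 le_rfl le_rfl le_rfl
  set s := a.foldl (fun s b => gst N m (x, s, b)) (([], [], []) : Sta) with hs
  obtain ⟨u, v, w⟩ := s
  have h4 := sz_listBool_le u
  have h5 := sz_listBool_le v
  have h6 := sz_listBool_le w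
  have h7 := length_lt_sz a
  simp only [sz_pair, Polynomial.eval_add, Polynomial.eval_mul, Polynomial.eval_C,
    Polynomial.eval_X]
  simp only at h3
  omega

/-- the states -/
def sta (O : Oracle) (x : List Bool) (t : ℕ) : Sta :=
  iter O (fun _ => ([], [], [])) (gqu i N m) (gst N m) x t

theorem sta_succ (O : Oracle) (x : List Bool) (t : ℕ) : sta i N m O x (t + 1) =
    gst N m (x, sta i N m O x t, O (gqu i N m (x, sta i N m O x t))) := rfl

theorem sta_guide {O : Oracle} {n : ℕ} {y : List Bool} {D : DT (List Bool) Bool} {t : ℕ}
    {h v w : List Bool} (hG : ∀ h v : List Bool, O (true :: false :: pairBits (hdr i n (m.eval n))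
      (pairBits y (pairBits h v))) = gbit D (m.eval n) h v)
    (hs : sta i N m O (pairBits (un n) y) t = (h, v, w))
    (hv : v.length < m.eval n ∨ N.eval n ≤ h.length) :
    sta i N m O (pairBits (un n) y) (t + 1) = (h, v ++ [gbit D (m.eval n) h v],
      if gbit D (m.eval n) h v = true then v else w) := by
  have h1 : gd N m (pairBits (un n) y, (h, v, w)) = true := by
    unfold gd
    simp only [unpair_pairBits, List.length_replicate, Bool.or_eq_true, decide_eq_true_eq]
    exact hv
  have h2 : gqu i N m (pairBits (un n) y, (h, v, w)) =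
      true :: false :: pairBits (hdr i n (m.eval n)) (pairBits y (pairBits h v)) := by
    unfold gqu
    rw [if_pos h1]
    simp only [unpair_pairBits, List.length_replicate]
  rw [sta_succ, hs, h2, hG]
  unfold gst
  simp only
  rw [if_pos h1]

theorem sta_ask {O : Oracle} {n : ℕ} {y : List Bool} {t : ℕ} {h v w : List Bool}
    (hs : sta i N m O (pairBits (un n) y) t = (h, v, w)) (hv : v.length = m.eval n)
    (hh : h.length < N.eval n) :
    sta i N m O (pairBits (un n) y) (t + 1) = (h ++ [O w], [], []) := by
  have h1 : ¬ gd N m (pairBits (un n) y, (h, v, w)) = true := by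
    unfold gd
    simp only [unpair_pairBits, List.length_replicate, Bool.or_eq_true, decide_eq_true_eq]
    omega
  have h2 : gqu i N m (pairBits (un n) y, (h, v, w)) = w := by
    unfold gqu
    rw [if_neg h1]
  rw [sta_succ, hs, h2]
  unfold gst
  simp only
  rw [if_neg h1]

theorem cod_getD {M : ℕ} {z : List Bool} (hz : z.length < M) :
    (cod M z).getD z.length false = true ∧
      ∀ l, z.length < l → (cod M z).getD l false = false := by
  unfold cod
  refine ⟨by simp, fun l hl => ?_⟩
  rw [List.getD_eq_getElem?_getD, List.getElem?_append_right hl.le]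
  obtain ⟨d, hd⟩ := Nat.exists_eq_succ_of_ne_zero (Nat.sub_ne_zero_of_lt hl)
  rw [hd, List.getElem?_cons_succ]
  rcases lt_or_ge d (M - 1 - z.length) with h | h
  · simp [List.getElem?_replicate, h]
  · simp [List.getElem?_replicate, h]

theorem length_cod {M : ℕ} {z : List Bool} (hz : z.length < M) : (cod M z).length = M := by
  unfold cod
  simp only [List.length_append, List.length_cons, List.length_replicate]
  omega

theorem take_succ_getD (l : List Bool) (k : ℕ) (hk : k < l.length) :
    l.take (k + 1) = l.take k ++ [l.getD k false] := by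
  rw [List.take_succ, List.getD_eq_getElem?_getD, List.getElem?_eq_getElem hk]
  rfl

/-- one round -/
theorem sta_round {O : Oracle} {n : ℕ} {y : List Bool} {D : DT (List Bool) Bool} {t : ℕ}
    {h : List Bool} (hG : ∀ h v : List Bool, O (true :: false :: pairBits (hdr i n (m.eval n))
      (pairBits y (pairBits h v))) = gbit D (m.eval n) h v)
    (hs : sta i N m O (pairBits (un n) y) t = (h, [], [])) (hh : h.length < N.eval n)
    (hD : (D.at h).All fun z => z.length < m.eval n) :
    ∃ b, sta i N m O (pairBits (un n) y) (t + (m.eval n + 1)) = (h ++ [b], [], []) ∧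
      ∀ z k, D.at h = DT.ask z k → b = O z := by
  rcases hc : D.at h with c | ⟨z, k⟩
  · have key : ∀ l ≤ m.eval n, ∃ v w : List Bool,
        sta i N m O (pairBits (un n) y) (t + l) = (h, v, w) ∧ v.length = l := by
      intro l
      induction l with
      | zero => exact fun _ => ⟨[], [], hs, rfl⟩
      | succ l ih =>
        intro hl
        obtain ⟨v, w, h1, h2⟩ := ih (by omega)
        refine ⟨_, _, sta_guide i N m hG h1 (Or.inl (by omega)), ?_⟩
        rw [List.length_append, List.length_singleton, h2]
    obtain ⟨v, w, h1, h2⟩ := key _ le_rfl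
    exact ⟨O w, sta_ask i N m h1 h2 hh, fun z k h => by cases h⟩
  · rw [hc] at hD
    have hz := hD.1
    have hg : ∀ v : List Bool, gbit D (m.eval n) h v =
        (cod (m.eval n) z).getD v.length false := by
      intro v
      unfold gbit
      rw [hc]
    have key : ∀ l ≤ m.eval n, ∃ w : List Bool,
        sta i N m O (pairBits (un n) y) (t + l) = (h, (cod (m.eval n) z).take l, w) ∧
          (z.length < l → w = z) := by
      intro l
      induction l with
      | zero => exact fun _ => ⟨[], hs, fun h => absurd h (by omega)⟩
      | succ l ih =>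
        intro hl
        obtain ⟨w, h1, h2⟩ := ih (by omega)
        have hlen : ((cod (m.eval n) z).take l).length = l := by
          rw [List.length_take, length_cod hz]
          omega
        have h3 := sta_guide i N m hG h1 (Or.inl (by omega))
        rw [hg, hlen] at h3
        rw [take_succ_getD _ _ (by rw [length_cod hz]; omega)]
        refine ⟨_, h3, fun h4 => ?_⟩
        rcases Nat.lt_succ_iff_lt_or_eq.mp h4 with h5 | h5
        · rw [(cod_getD hz).2 l h5, if_neg (by simp)]
          exact h2 h5
        · rw [← h5, (cod_getD hz).1, if_pos rfl]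
          unfold cod
          rw [List.take_left']
          rfl
    obtain ⟨w, h1, h2⟩ := key _ le_rfl
    have h3 := h2 hz
    subst h3
    refine ⟨O w, sta_ask i N m h1 (by rw [List.length_take, length_cod hz]; omega) hh, ?_⟩
    intro z' k' h4
    cases h4
    rfl

/-- Piece E1. -/
theorem p_guide : P_guide := by
  intro i N m
  refine ⟨G i N m, isFP_G i N m, fun O n pk c D hDN hDm hG => ?_⟩
  have key : ∀ j ≤ N.eval n, ∃ h : List Bool,
      sta i N m O (pairBits (un n) (pairBits pk c)) (j * (m.eval n + 1)) = (h, [], []) ∧
      h.length = j ∧ (D.at h).Le (N.eval n - j) ∧ (D.at h).run O = D.run O ∧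
      (D.at h).All fun z => z.length < m.eval n := by
    intro j
    induction j with
    | zero =>
      intro _
      refine ⟨[], ?_, rfl, ?_, ?_, ?_⟩
      · rw [Nat.zero_mul]
        rfl
      · rw [at_nil]
        exact hDN
      · rw [at_nil]
      · rw [at_nil]
        exact hDm
    | succ j ih =>
      intro hj
      obtain ⟨h, h1, h2, h3, h4, h5⟩ := ih (by omega)
      obtain ⟨b, h6, h7⟩ := sta_round i N m hG h1 (by omega) h5
      refine ⟨h ++ [b], ?_, by rw [List.length_append, List.length_singleton, h2], ?_⟩
      · rw [Nat.succ_mul]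
        exact h6
      · rw [at_append]
        rcases hc : D.at h with e | ⟨z, k⟩
        · rw [hc] at h3 h4 h5
          exact ⟨DT.le_ret _ _, h4, h5⟩
        · rw [hc] at h3 h4 h5
          have h8 := h7 z k hc
          subst h8
          change ((k (O z)).at []).Le _ ∧ ((k (O z)).at []).run O = _ ∧ ((k (O z)).at []).All _
          rw [at_nil]
          refine ⟨?_, h4, h5.2 _⟩
          have h9 : N.eval n - j = N.eval n - (j + 1) + 1 := by omega
          rw [h9] at h3
          exact h3 _
  obtain ⟨h, h1, h2, h3, h4, h5⟩ := key _ le_rfl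
  rw [Nat.sub_self] at h3
  rcases hc : D.at h with e | ⟨z, k⟩
  · rw [hc] at h4
    have h6 := sta_guide i N m hG h1 (Or.inr h2.ge)
    have h7 : gbit D (m.eval n) h [] = e := by
      unfold gbit
      rw [hc]
    rw [h7] at h6
    have h8 : (pairBits (un n) (pairBits pk c)) = pairBits (un n) (pairBits pk c) := rfl
    change (sta i N m O (pairBits (un n) (pairBits pk c)) _).2.1 = _
    rw [unpair_pairBits]
    simp only [List.length_replicate]
    rw [h6]
    rw [← h4]
    rfl
  · rw [hc] at h3
    exact absurd h3 (DT.le_zero_ask z k)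

end

end Pool.Agent.W2helper57.PK
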